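import Mathlib
import Pool.Agent.H25.GameJDefs
import Pool.Agent.H25.GameJ

set_option autoImplicit false

namespace Pool.Agent.Results.MP_26a47b_lc.Value

open Pool.Agent.H25.GameJDefs

theorem result (κ : Cardinal.{0}) :
    (∀ (X : Type) [TopologicalSpace X] [T35Space X], HasCellular X κ → OneWins X) ↔
      nonSMZ ≤ κ :=
  Pool.Agent.H25.GameJ.main κ

end Pool.Agent.Results.MP_26a47b_lc.Value
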